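import Pool.Agent.N942.ChainC

/-!
# The discrete Gaussian chain: a logarithmic lower bound for the variance at all temperatures

For every `α > 2` and every `β > 0` there is `c > 0` such that the variance of the height at the origin of the
integer-valued chain on `[-N, N]` with zero boundary condition and interaction `|x - y| ^ (-α)` is at least `c log N`,
for all `N ≥ 1`.

Proof: adding one to the heights of a block costs bounded energy for `α > 2`, the second moments are monotone in the
volume, and the averages over dyadic blocks are compared (`Pool/Agent/N942/ChainC.lean`, `lower`).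
-/

set_option autoImplicit false

namespace Pool.Agent.Results.MP_57c4e5_pr.LogarithmicLowerBound

open Pool.Agent.N942.Chain

/-- The configurations: integer-valued functions on `ℤ` which vanish outside of `[-N, N]`. -/
def Conf (N : ℕ) : Type := {φ : ℤ → ℤ // ∀ x : ℤ, (N : ℤ) < |x| → φ x = 0}

/-- The Hamiltonian: the sum over the ordered pairs `(x, y)`, `x ≠ y`, of `|x - y| ^ (-α) (φ x - φ y) ^ 2`. -/
noncomputable def energy (α : ℝ) (φ : ℤ → ℤ) : ℝ :=
  ∑' p : ℤ × ℤ, (if p.1 = p.2 then (0 : ℝ)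
    else ((|p.1 - p.2| : ℤ) : ℝ) ^ (-α) * ((φ p.1 : ℝ) - (φ p.2 : ℝ)) ^ 2)

/-- The variance of the height at the origin for the chain on `[-N, N]` with zero boundary condition. -/
noncomputable def variance (α β : ℝ) (N : ℕ) : ℝ :=
  (∑' φ : Conf N, ((φ.1 0 : ℝ)) ^ 2 * Real.exp (-β * energy α φ.1)) /
    ∑' φ : Conf N, Real.exp (-β * energy α φ.1)

theorem result : ∀ α : ℝ, 2 < α → ∀ β : ℝ, 0 < β → ∃ c : ℝ, 0 < c ∧ ∀ N : ℕ, 1 ≤ N →
    c * Real.log N ≤ variance α β N := by
  intro α hα β hβ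
  have hmem : ∀ (N : ℕ) (φ : ℤ → ℤ), φ ∈ M (Finset.Icc (-(N : ℤ)) N) ↔
      ∀ x : ℤ, (N : ℤ) < |x| → φ x = 0 := by
    intro N φ
    rw [mem_M]
    refine forall_congr' fun x => ?_
    rw [Finset.mem_Icc, ← abs_le, not_le]
  let e : ∀ N : ℕ, M (Finset.Icc (-(N : ℤ)) N) ≃ Conf N :=
    fun N => Equiv.subtypeEquivRight (hmem N)
  have hvar : ∀ N : ℕ, variance α β N =
      (∑' φ : M (Finset.Icc (-(N : ℤ)) N), W α β φ.1 * ((φ.1 0 : ℤ) : ℝ) ^ 2) /
        (∑' φ : M (Finset.Icc (-(N : ℤ)) N), W α β φ.1) := by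
    intro N
    unfold variance
    congr 1
    · rw [← (e N).tsum_eq]
      refine tsum_congr fun φ => ?_
      show ((φ.1 0 : ℤ) : ℝ) ^ 2 * Real.exp (-β * energy α φ.1) =
        Real.exp (-β * En α φ.1) * ((φ.1 0 : ℤ) : ℝ) ^ 2
      have hE : energy α φ.1 = En α φ.1 := by
        unfold energy
        rw [← En_eq hα]
      rw [hE, mul_comm]
    · rw [← (e N).tsum_eq]
      refine tsum_congr fun φ => ?_
      show Real.exp (-β * energy α φ.1) = Real.exp (-β * En α φ.1)
      have hE : energy α φ.1 = En α φ.1 := by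
        unfold energy
        rw [← En_eq hα]
      rw [hE]
  set κ : ℝ := 4 * (4 + 2 * Real.exp (β * CC α)) with hκ
  have hκ0 : 0 < κ := by positivity
  have hl2 : 0 < Real.log 2 := Real.log_pos (by norm_num)
  refine ⟨1 / (2 * Real.log 2 * κ), by positivity, fun N hN => ?_⟩
  have hN0 : N ≠ 0 := by omega
  have h1 := lower hα hβ (Nat.log 2 N) N (Nat.pow_log_le_self 2 hN0)
  rw [← hκ, ← hvar N] at h1
  refine le_trans ?_ h1
  rcases Nat.lt_or_ge N 2 with h | h
  · have : N = 1 := by omega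
    subst this
    simp
  · have hj : 1 ≤ Nat.log 2 N := (Nat.le_log_iff_pow_le (by norm_num) hN0).2 (by simpa using h)
    have hlt : N < 2 ^ (Nat.log 2 N + 1) := Nat.lt_pow_succ_log_self (by norm_num) N
    have hlog : Real.log N ≤ ((Nat.log 2 N : ℝ) + 1) * Real.log 2 := by
      have h3 : Real.log N ≤ Real.log ((2 : ℝ) ^ (Nat.log 2 N + 1)) := by
        apply Real.log_le_log (by exact_mod_cast hN)
        exact_mod_cast hlt.le
      rw [Real.log_pow] at h3
      push_cast at h3
      exact h3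
    have hj' : (1 : ℝ) ≤ (Nat.log 2 N : ℝ) := by exact_mod_cast hj
    have h4 : Real.log N ≤ 2 * (Nat.log 2 N : ℝ) * Real.log 2 := by nlinarith
    rw [div_mul_eq_mul_div, one_mul, div_le_div_iff₀ (by positivity) hκ0]
    calc Real.log N * κ ≤ (2 * (Nat.log 2 N : ℝ) * Real.log 2) * κ := mul_le_mul_of_nonneg_right h4 hκ0.le
      _ = (Nat.log 2 N : ℝ) * (2 * Real.log 2 * κ) := by ring

end Pool.Agent.Results.MP_57c4e5_pr.LogarithmicLowerBound
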